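import Pool.Agent.D0H11.GO.Stm

/-! # Project GO (helper11): the abstract engine (one real parameter) -/

set_option autoImplicit false

namespace Pool.Agent.D0H11.GO

open Finset MeasureTheory Filter
open Pool.Agent.D0H11.GM (Sq S_MOM S_DENS)

/-- the parameters for which the number of the quadruple is prime -/
def Ps (P : ℝ → (Fin 4 → ℕ) → Prop) (q : Fin 4 → ℕ) : Set (ℝ × ℝ) := {a | P a.1 q}

theorem Ps_meas {P : ℝ → (Fin 4 → ℕ) → Prop} (hP : ∀ q, MeasurableSet {α : ℝ | P α q}) (q : Fin 4 → ℕ) :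
    MeasurableSet (Ps P q) := measurable_fst (hP q)

/-- the indicator -/
noncomputable def ind (P : ℝ → (Fin 4 → ℕ) → Prop) (q : Fin 4 → ℕ) (a : ℝ × ℝ) : ℝ :=
  (Ps P q).indicator (fun _ => (1 : ℝ)) a

section

variable {P : ℝ → (Fin 4 → ℕ) → Prop} (hP : ∀ q, MeasurableSet {α : ℝ | P α q})

include hP in
theorem ind_meas (q : Fin 4 → ℕ) : Measurable (ind P q) := measurable_const.indicator (Ps_meas hP q)

theorem ind_nonneg (q : Fin 4 → ℕ) (a : ℝ × ℝ) : 0 ≤ ind P q a := by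
  unfold ind
  exact Set.indicator_nonneg (fun _ _ => zero_le_one) a

theorem ind_le (q : Fin 4 → ℕ) (a : ℝ × ℝ) : ind P q a ≤ 1 := by
  unfold ind
  exact Set.indicator_le_self' (fun _ _ => zero_le_one) a

theorem ind_one (q : Fin 4 → ℕ) (a : ℝ × ℝ) (h : P a.1 q) : ind P q a = 1 := by
  unfold ind
  exact Set.indicator_of_mem (s := Ps P q) h _

theorem ind_zero (q : Fin 4 → ℕ) (a : ℝ × ℝ) (h : ¬ P a.1 q) : ind P q a = 0 := by
  unfold ind
  exact Set.indicator_of_notMem (s := Ps P q) h _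

/-- the number of the quadruples of `n` with a prime number -/
noncomputable def SS (P : ℝ → (Fin 4 → ℕ) → Prop) (nf : (Fin 4 → ℕ) → ℕ) (Q : Finset (Fin 4 → ℕ)) (n : ℕ)
    (a : ℝ × ℝ) : ℝ := ∑ q ∈ Q.filter (fun q => nf q = n), ind P q a

theorem sum1 {nf : (Fin 4 → ℕ) → ℕ} {Q : Finset (Fin 4 → ℕ)} {L : ℕ} (hL : ∀ q ∈ Q, nf q < L) (a : ℝ × ℝ) :
    ∑ n ∈ range L, SS P nf Q n a = ∑ q ∈ Q, ind P q a := by
  unfold SS
  exact Finset.sum_fiberwise_of_maps_to (fun q hq => mem_range.2 (hL q hq)) _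

theorem sum2 {nf : (Fin 4 → ℕ) → ℕ} {Q : Finset (Fin 4 → ℕ)} {L : ℕ} (hL : ∀ q ∈ Q, nf q < L) (a : ℝ × ℝ) :
    ∑ n ∈ range L, SS P nf Q n a ^ 2 =
    ∑ p ∈ (Q ×ˢ Q).filter (fun p => nf p.1 = nf p.2), ind P p.1 a * ind P p.2 a := by
  have e : ∀ n, SS P nf Q n a ^ 2 = ∑ p ∈ ((Q ×ˢ Q).filter (fun p => nf p.1 = nf p.2)).filter
      (fun p => nf p.1 = n), ind P p.1 a * ind P p.2 a := by
    intro n
    unfold SS
    rw [sq, Finset.sum_mul_sum, ← Finset.sum_product']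
    refine Finset.sum_congr ?_ fun _ _ => rfl
    ext p
    simp only [mem_filter, mem_product]
    constructor
    · rintro ⟨⟨h1, h2⟩, h3, h4⟩
      exact ⟨⟨⟨h1, h3⟩, by rw [h2, h4]⟩, h2⟩
    · rintro ⟨⟨⟨h1, h2⟩, h3⟩, h4⟩
      exact ⟨⟨h1, h4⟩, h2, by rw [← h3, h4]⟩
  simp only [e]
  exact Finset.sum_fiberwise_of_maps_to (fun p hp => mem_range.2 (hL _ (mem_product.1 (mem_filter.1 hp).1).1)) _

include hP in
theorem SS_meas (nf : (Fin 4 → ℕ) → ℕ) (Q : Finset (Fin 4 → ℕ)) (n : ℕ) : Measurable (SS P nf Q n) := by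
  unfold SS
  exact Finset.measurable_sum _ fun q _ => ind_meas hP q

theorem SS_bd (nf : (Fin 4 → ℕ) → ℕ) (Q : Finset (Fin 4 → ℕ)) (n : ℕ) (a : ℝ × ℝ) :
    0 ≤ SS P nf Q n a ∧ SS P nf Q n a ≤ Q.card := by
  unfold SS
  refine ⟨Finset.sum_nonneg fun q _ => ind_nonneg q a, ?_⟩
  refine (Finset.sum_le_sum_of_subset_of_nonneg (Finset.filter_subset _ _) fun q _ _ => ind_nonneg q a).trans ?_
  calc ∑ q ∈ Q, ind P q a ≤ ∑ _q ∈ Q, (1 : ℝ) := Finset.sum_le_sum fun q _ => ind_le q a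
    _ = _ := by rw [Finset.sum_const, nsmul_eq_mul, mul_one]

theorem ball_eq (c : ℝ × ℝ) (r : ℝ) :
    Metric.closedBall c r = Set.Icc (c.1 - r) (c.1 + r) ×ˢ Metric.closedBall c.2 r := by
  rw [← Real.closedBall_eq_Icc, closedBall_prod_same]

/-- product sets -/
theorem vol_prod (c : ℝ × ℝ) (r : ℝ) (hr : 0 < r) (R : ℝ → Prop) :
    (volume {a : ℝ × ℝ | a ∈ Metric.closedBall c r ∧ R a.1}).toReal =
      (volume {α : ℝ | α ∈ Set.Icc (c.1 - r) (c.1 + r) ∧ R α}).toReal * (2 * r) := by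
  have e : {a : ℝ × ℝ | a ∈ Metric.closedBall c r ∧ R a.1} =
      {α : ℝ | α ∈ Set.Icc (c.1 - r) (c.1 + r) ∧ R α} ×ˢ Metric.closedBall c.2 r := by
    rw [ball_eq]
    ext a
    simp only [Set.mem_ofPred_eq, Set.mem_prod]
    tauto
  rw [e, Measure.volume_eq_prod, Measure.prod_prod, Real.volume_closedBall, ENNReal.toReal_mul,
    ENNReal.toReal_ofReal (by positivity)]

include hP in
theorem int1 (J : Set (ℝ × ℝ)) (q : Fin 4 → ℕ) :
    ∫ a in J, ind P q a = (volume {a : ℝ × ℝ | a ∈ J ∧ P a.1 q}).toReal := by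
  have e : ind P q = (Ps P q).indicator 1 := rfl
  rw [e, integral_indicator_one (Ps_meas hP q), measureReal_def, Measure.restrict_apply (Ps_meas hP q)]
  congr 2
  ext a
  simp only [Ps, Set.mem_inter_iff, Set.mem_ofPred_eq]
  exact and_comm

include hP in
theorem int2 (J : Set (ℝ × ℝ)) (q q' : Fin 4 → ℕ) :
    ∫ a in J, ind P q a * ind P q' a = (volume {a : ℝ × ℝ | a ∈ J ∧ (P a.1 q ∧ P a.1 q')}).toReal := by
  have e : (fun a => ind P q a * ind P q' a) = (Ps P q ∩ Ps P q').indicator 1 := by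
    funext a
    by_cases h1 : P a.1 q
    · by_cases h2 : P a.1 q'
      · rw [ind_one _ _ h1, ind_one _ _ h2, mul_one, Set.indicator_of_mem (show a ∈ Ps P q ∩ Ps P q' from ⟨h1, h2⟩)]
        rfl
      · rw [ind_zero _ _ h2, mul_zero, Set.indicator_of_notMem (show a ∉ Ps P q ∩ Ps P q' from fun h => h2 h.2)]
    · rw [ind_zero _ _ h1, zero_mul, Set.indicator_of_notMem (show a ∉ Ps P q ∩ Ps P q' from fun h => h1 h.1)]
  have hm := (Ps_meas hP q).inter (Ps_meas hP q')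
  rw [e, integral_indicator_one hm, measureReal_def, Measure.restrict_apply hm]
  congr 2
  ext a
  simp only [Ps, Set.mem_inter_iff, Set.mem_ofPred_eq]
  tauto

theorem vol_ball (c : ℝ × ℝ) (r : ℝ) (hr : 0 < r) : volume (Metric.closedBall c r) = ENNReal.ofReal (4 * r ^ 2) := by
  have e : Metric.closedBall c r = Metric.closedBall c.1 r ×ˢ Metric.closedBall c.2 r := by
    rw [closedBall_prod_same]
  rw [e, Measure.volume_eq_prod, Measure.prod_prod, Real.volume_closedBall, Real.volume_closedBall,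
    ← ENNReal.ofReal_mul (by positivity)]
  congr 1
  ring

theorem vol_ball' (c : ℝ × ℝ) (r : ℝ) (hr : 0 < r) : (volume (Metric.closedBall c r)).toReal = 4 * r ^ 2 := by
  rw [vol_ball c r hr, ENNReal.toReal_ofReal (by positivity)]

include hP in
theorem ind_int (J : Set (ℝ × ℝ)) (hJ : volume J ≠ ⊤) (q : Fin 4 → ℕ) : IntegrableOn (ind P q) J := by
  refine Measure.integrableOn_of_bounded hJ (ind_meas hP q).aestronglyMeasurable (M := 1) ?_
  refine Filter.Eventually.of_forall fun a => ?_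
  rw [Real.norm_eq_abs, abs_of_nonneg (ind_nonneg q a)]
  exact ind_le q a

include hP in
theorem ind_int2 (J : Set (ℝ × ℝ)) (hJ : volume J ≠ ⊤) (q q' : Fin 4 → ℕ) :
    IntegrableOn (fun a => ind P q a * ind P q' a) J := by
  refine Measure.integrableOn_of_bounded hJ ((ind_meas hP q).mul (ind_meas hP q')).aestronglyMeasurable (M := 1) ?_
  refine Filter.Eventually.of_forall fun a => ?_
  rw [Real.norm_eq_abs, abs_of_nonneg (mul_nonneg (ind_nonneg q a) (ind_nonneg q' a))]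
  exact mul_le_one₀ (ind_le q a) (ind_nonneg q' a) (ind_le q' a)

end

open Classical in
theorem eng (P : ℝ → (Fin 4 → ℕ) → Prop) (hP : ∀ q, MeasurableSet {α : ℝ | P α q})
    (Q : ℕ → Finset (Fin 4 → ℕ)) (nf : (Fin 4 → ℕ) → ℕ) (D : ℕ) (hD : 1 ≤ D)
    (hlt : ∀ M, ∀ q ∈ Q M, nf q < 16 * (D * M) ^ 2) (hodd : ∀ M, ∀ q ∈ Q M, Odd (nf q))
    (hco : ∀ (q : Fin 4 → ℕ) (i : Fin 4), q i ≤ nf q)
    (hcard : ∃ c : ℝ, 0 < c ∧ ∀ M : ℕ, 2 ≤ M → c * (M : ℝ) ^ 4 ≤ ((Q M).card : ℝ))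
    (hone : ∃ c₀ : ℝ, 0 < c₀ ∧ ∀ c r : ℝ, 0 < r → r < c → ∀ᶠ M : ℕ in atTop, ∀ q ∈ Q M,
      ENNReal.ofReal (c₀ * r / M) ≤ volume {α : ℝ | α ∈ Set.Icc (c - r) (c + r) ∧ P α q})
    (htwo : ∃ C : ℝ, 0 < C ∧ ∀ c r : ℝ, 0 < r → r < c → ∀ᶠ M : ℕ in atTop,
      ∑ p ∈ (Q M ×ˢ Q M).filter (fun p => nf p.1 = nf p.2),
        (volume {α : ℝ | α ∈ Set.Icc (c - r) (c + r) ∧ (P α p.1 ∧ P α p.2)}).toReal ≤ C * r * (M : ℝ) ^ 4)
    (hM : S_MOM) (hDn : S_DENS) :
    ∃ c : ℝ, 0 < c ∧ ∀ᵐ α : ℝ, 0 < α → ∃ᶠ N : ℕ in atTop, c * N ≤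
      ((((range N).filter fun n => Odd n ∧ c * Real.sqrt N ≤ (({q : Fin 4 → ℕ | nf q = n ∧ P α q}.ncard : ℕ) : ℝ)).card : ℕ) : ℝ) := by
  obtain ⟨c1, hc1, hcard⟩ := hcard
  obtain ⟨c0, hc0, hone⟩ := hone
  obtain ⟨C1, hC1, htwo⟩ := htwo
  have hDr : (1 : ℝ) ≤ D := by exact_mod_cast hD
  have hD0 : (0 : ℝ) < D := by linarith
  obtain ⟨cc, hcc⟩ : ∃ cc : ℝ, cc = c0 * c1 / (2 * (D : ℝ) ^ 3) := ⟨_, rfl⟩
  have hcc0 : 0 < cc := by rw [hcc]; positivity
  obtain ⟨c₁, hc₁, hmom⟩ := hM cc C1 hcc0 hC1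
  obtain ⟨G, hG⟩ : ∃ G : ℕ → Set (ℝ × ℝ), G = fun M : ℕ => {a : ℝ × ℝ | c₁ * (((D * M : ℕ) : ℝ)) ^ 2 ≤
    ((((range (16 * (D * M) ^ 2)).filter fun n => c₁ * ((D * M : ℕ) : ℝ) ≤ SS P nf (Q M) n a).card : ℕ) : ℝ)} := ⟨_, rfl⟩
  have hGm : ∀ M, MeasurableSet (G M) := by
    intro M
    rw [hG]
    have e : ∀ a : ℝ × ℝ, ((((range (16 * (D * M) ^ 2)).filter fun n => c₁ * ((D * M : ℕ) : ℝ) ≤ SS P nf (Q M) n a).card : ℕ) : ℝ) =
        ∑ n ∈ range (16 * (D * M) ^ 2), if c₁ * ((D * M : ℕ) : ℝ) ≤ SS P nf (Q M) n a then (1 : ℝ) else 0 := by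
      intro a
      rw [Finset.card_filter]
      push_cast
      rfl
    simp only [e]
    refine measurableSet_le measurable_const (Finset.measurable_sum _ fun n _ => ?_)
    exact Measurable.ite (measurableSet_le measurable_const (SS_meas hP nf (Q M) n)) measurable_const measurable_const
  have hae := hDn G c₁ hc₁ hGm (fun x r hx => by
    filter_upwards [hone x.1 r hx.1 hx.2.1, htwo x.1 r hx.1 hx.2.1, eventually_ge_atTop 2] with M h1 h2 h3
    have hr := hx.1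
    have hM0 : (0 : ℝ) < M := by
      have : 0 < M := by omega
      exact_mod_cast this
    have hM1 : (1 : ℝ) ≤ M := by
      have : 1 ≤ M := by omega
      exact_mod_cast this
    have hfin : volume (Metric.closedBall x r) ≠ ⊤ := by
      rw [vol_ball x r hr]
      exact ENNReal.ofReal_ne_top
    -- first moment
    have f1 : cc * ((D * M : ℕ) : ℝ) ^ 3 * (volume (Metric.closedBall x r)).toReal ≤
        ∫ a in Metric.closedBall x r, ∑ n ∈ range (16 * (D * M) ^ 2), SS P nf (Q M) n a := by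
      simp only [sum1 (hlt M)]
      rw [integral_finsetSum _ fun q _ => ind_int hP _ hfin q, vol_ball' x r hr]
      have h4 : ∀ q ∈ Q M, c0 * r / M * (2 * r) ≤ ∫ a in Metric.closedBall x r, ind P q a := by
        intro q hq
        rw [int1 hP, vol_prod x r hr (fun α => P α q)]
        refine mul_le_mul_of_nonneg_right ?_ (by positivity)
        have h5 : volume {α : ℝ | α ∈ Set.Icc (x.1 - r) (x.1 + r) ∧ P α q} ≠ ⊤ := by
          refine ne_top_of_le_ne_top ?_ (measure_mono (show {α : ℝ | α ∈ Set.Icc (x.1 - r) (x.1 + r) ∧ P α q} ⊆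
            Set.Icc (x.1 - r) (x.1 + r) from fun a ha => ha.1))
          rw [Real.volume_Icc]
          exact ENNReal.ofReal_ne_top
        rw [← ENNReal.toReal_ofReal (show 0 ≤ c0 * r / M by positivity)]
        exact ENNReal.toReal_mono h5 (h1 q hq)
      have h6 : (Q M).card * (c0 * r / M * (2 * r)) ≤ ∑ q ∈ Q M, ∫ a in Metric.closedBall x r, ind P q a := by
        rw [← nsmul_eq_mul]
        exact Finset.card_nsmul_le_sum _ _ _ h4
      refine le_trans ?_ h6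
      have h7 := hcard M h3
      calc cc * ((D * M : ℕ) : ℝ) ^ 3 * (4 * r ^ 2) = c1 * (M : ℝ) ^ 4 * (c0 * r / M * (2 * r)) := by
            rw [hcc]
            push_cast
            field_simp
            ring
        _ ≤ _ := mul_le_mul_of_nonneg_right h7 (by positivity)
    -- second moment
    have f2 : ∫ a in Metric.closedBall x r, ∑ n ∈ range (16 * (D * M) ^ 2), SS P nf (Q M) n a ^ 2 ≤
        C1 * ((D * M : ℕ) : ℝ) ^ 4 * (volume (Metric.closedBall x r)).toReal := by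
      simp only [sum2 (hlt M)]
      have e0 : ∫ a in Metric.closedBall x r, ∑ p ∈ (Q M ×ˢ Q M).filter (fun p => nf p.1 = nf p.2), ind P p.1 a * ind P p.2 a =
          ∑ p ∈ (Q M ×ˢ Q M).filter (fun p => nf p.1 = nf p.2), ∫ a in Metric.closedBall x r, ind P p.1 a * ind P p.2 a :=
        integral_finsetSum _ fun (p : (Fin 4 → ℕ) × (Fin 4 → ℕ)) _ => ind_int2 hP _ hfin p.1 p.2
      rw [e0, vol_ball' x r hr]
      have e1 : ∀ p ∈ (Q M ×ˢ Q M).filter (fun p => nf p.1 = nf p.2), ∫ a in Metric.closedBall x r, ind P p.1 a * ind P p.2 a =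
          (volume {α : ℝ | α ∈ Set.Icc (x.1 - r) (x.1 + r) ∧ (P α p.1 ∧ P α p.2)}).toReal * (2 * r) := by
        intro p _
        rw [int2 hP, vol_prod x r hr (fun α => P α p.1 ∧ P α p.2)]
      rw [Finset.sum_congr rfl e1, ← Finset.sum_mul]
      calc _ ≤ C1 * r * (M : ℝ) ^ 4 * (2 * r) := mul_le_mul_of_nonneg_right h2 (by positivity)
        _ ≤ C1 * ((D * M : ℕ) : ℝ) ^ 4 * (4 * r ^ 2) := by
          push_cast
          have g1 : (1 : ℝ) ≤ (D : ℝ) ^ 4 := one_le_pow₀ hDr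
          have g2 : 0 ≤ C1 * r ^ 2 * (M : ℝ) ^ 4 := by positivity
          have g3 : C1 * r * (M : ℝ) ^ 4 * (2 * r) = 2 * (C1 * r ^ 2 * (M : ℝ) ^ 4) := by ring
          have g4 : C1 * ((D : ℝ) * M) ^ 4 * (4 * r ^ 2) = 4 * ((D : ℝ) ^ 4 * (C1 * r ^ 2 * (M : ℝ) ^ 4)) := by ring
          rw [g3, g4]
          nlinarith [mul_le_mul_of_nonneg_right g1 g2]
    have h4 := hmom (D * M) (Metric.closedBall x r) (SS P nf (Q M)) ((Q M).card : ℝ) (Nat.mul_pos (by omega) (by omega))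
      Metric.isClosed_closedBall.measurableSet hfin (SS_meas hP nf (Q M)) (SS_bd nf (Q M)) f1 f2
    have h5 : {a : ℝ × ℝ | a ∈ Metric.closedBall x r ∧ c₁ * ((D * M : ℕ) : ℝ) ^ 2 ≤
        ((((range (16 * (D * M) ^ 2)).filter fun n => c₁ * ((D * M : ℕ) : ℝ) ≤ SS P nf (Q M) n a).card : ℕ) : ℝ)} =
        G M ∩ Metric.closedBall x r := by
      rw [hG]
      ext a
      simp only [Set.mem_ofPred_eq, Set.mem_inter_iff]
      exact and_comm
    have h6 : volume (G M ∩ Metric.closedBall x r) ≠ ⊤ :=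
      ne_top_of_le_ne_top hfin (measure_mono Set.inter_subset_right)
    calc ENNReal.ofReal c₁ * volume (Metric.closedBall x r) =
          ENNReal.ofReal c₁ * ENNReal.ofReal (volume (Metric.closedBall x r)).toReal := by
            rw [ENNReal.ofReal_toReal hfin]
      _ = ENNReal.ofReal (c₁ * (volume (Metric.closedBall x r)).toReal) := by
            rw [← ENNReal.ofReal_mul hc₁.le]
      _ ≤ ENNReal.ofReal (volume (G M ∩ Metric.closedBall x r)).toReal := ENNReal.ofReal_le_ofReal (by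
            rw [← h5]
            convert h4)
      _ = _ := ENNReal.ofReal_toReal h6)
  -- almost every α
  have hae2 : ∀ᵐ α : ℝ, 0 < α → ∃ᶠ M : ℕ in atTop, (α, (1 : ℝ)) ∈ G M := by
    have hsec : ∀ (M : ℕ) (α β β' : ℝ), (α, β) ∈ G M → (α, β') ∈ G M := by
      intro M α β β' h
      rw [hG] at h ⊢
      exact h
    rw [Measure.volume_eq_prod] at hae
    have h7 := Measure.ae_ae_of_ae_prod hae
    filter_upwards [h7] with α hα hα0
    have h8 : ∃ β : ℝ, 0 < β ∧ ∃ᶠ M : ℕ in atTop, (α, β) ∈ G M := by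
      have h9 : ∀ᵐ β : ℝ, 0 < β → ∃ᶠ M : ℕ in atTop, (α, β) ∈ G M := by
        filter_upwards [hα] with β hβ hβ0
        exact hβ hα0 hβ0
      by_contra hno
      push Not at hno
      have h10 : ∀ᵐ β : ℝ, ¬ 0 < β := by
        filter_upwards [h9] with β hβ hβ0
        exact (hβ hβ0) (hno β hβ0)
      have h11 : volume (Set.Ioi (0 : ℝ)) = 0 := by
        rw [ae_iff] at h10
        simpa [not_not, Set.Ioi] using h10
      rw [Real.volume_Ioi] at h11
      exact absurd h11 ENNReal.top_ne_zero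
    obtain ⟨β, _, hβ⟩ := h8
    exact hβ.mono fun M hM => hsec M α β 1 hM
  refine ⟨c₁ / 16, by positivity, ?_⟩
  filter_upwards [hae2] with α hα hα0
  have hfr := hα hα0
  rw [Filter.frequently_atTop] at hfr ⊢
  intro N₀
  obtain ⟨M, hM1, hM2⟩ := hfr (N₀ + 1)
  have hMpos : 1 ≤ M := by omega
  have hDM : M ≤ D * M := by nlinarith
  have hDM0 : (0 : ℝ) < ((D * M : ℕ) : ℝ) := by
    have : 0 < D * M := by omega
    exact_mod_cast this
  refine ⟨16 * (D * M) ^ 2, by nlinarith, ?_⟩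
  rw [hG] at hM2
  simp only [Set.mem_ofPred_eq] at hM2
  have e1 : c₁ / 16 * ((16 * (D * M) ^ 2 : ℕ) : ℝ) = c₁ * ((D * M : ℕ) : ℝ) ^ 2 := by
    push_cast
    ring
  rw [e1]
  refine hM2.trans ?_
  have hsub : (range (16 * (D * M) ^ 2)).filter (fun n => c₁ * ((D * M : ℕ) : ℝ) ≤ SS P nf (Q M) n (α, 1)) ⊆
      (range (16 * (D * M) ^ 2)).filter fun n => Odd n ∧
      c₁ / 16 * Real.sqrt ((16 * (D * M) ^ 2 : ℕ) : ℝ) ≤ (({q : Fin 4 → ℕ | nf q = n ∧ P α q}.ncard : ℕ) : ℝ) := by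
    intro n hn
    rw [mem_filter] at hn ⊢
    obtain ⟨h1, h2⟩ := hn
    have h3 : SS P nf (Q M) n (α, 1) = ((((Q M).filter fun q => nf q = n ∧ P α q).card : ℕ) : ℝ) := by
      unfold SS
      rw [Finset.card_filter, Finset.sum_filter]
      push_cast
      refine Finset.sum_congr rfl fun q _ => ?_
      by_cases h4 : nf q = n
      · by_cases h5 : P α q
        · rw [if_pos h4, if_pos ⟨h4, h5⟩, ind_one _ _ (show P (α, (1 : ℝ)).1 q from h5)]
        · rw [if_pos h4, if_neg (fun h => h5 h.2), ind_zero _ _ (show ¬ P (α, (1 : ℝ)).1 q from h5)]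
      · rw [if_neg h4, if_neg (fun h => h4 h.1)]
    have hfinite : {q : Fin 4 → ℕ | nf q = n ∧ P α q}.Finite := by
      refine Set.Finite.subset (Finset.finite_toSet (Fintype.piFinset fun _ : Fin 4 => range (n + 1))) ?_
      rintro q ⟨hq, -⟩
      rw [Finset.mem_coe, Fintype.mem_piFinset]
      intro i
      rw [mem_range]
      have := hco q i
      omega
    have h4 : (((Q M).filter fun q => nf q = n ∧ P α q).card) ≤ {q : Fin 4 → ℕ | nf q = n ∧ P α q}.ncard := by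
      rw [← Set.ncard_coe_finset]
      refine Set.ncard_le_ncard ?_ hfinite
      intro q hq
      rw [Finset.mem_coe, mem_filter] at hq
      exact hq.2
    refine ⟨h1, ?_, ?_⟩
    · have h5 : 0 < ((Q M).filter fun q => nf q = n ∧ P α q).card := by
        rw [h3] at h2
        have : 0 < c₁ * ((D * M : ℕ) : ℝ) := by positivity
        have h6 : (0 : ℝ) < ((((Q M).filter fun q => nf q = n ∧ P α q).card : ℕ) : ℝ) := lt_of_lt_of_le this h2
        exact_mod_cast h6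
      obtain ⟨q, hq⟩ := Finset.card_pos.1 h5
      rw [mem_filter] at hq
      have h6 := hodd M q hq.1
      rwa [hq.2.1] at h6
    · have e2 : Real.sqrt ((16 * (D * M) ^ 2 : ℕ) : ℝ) = 4 * ((D * M : ℕ) : ℝ) := by
        have : ((16 * (D * M) ^ 2 : ℕ) : ℝ) = (4 * ((D * M : ℕ) : ℝ)) ^ 2 := by
          push_cast
          ring
        rw [this, Real.sqrt_sq (by positivity)]
      rw [e2]
      calc c₁ / 16 * (4 * ((D * M : ℕ) : ℝ)) ≤ c₁ * ((D * M : ℕ) : ℝ) := by nlinarith [mul_pos hc₁ hDM0]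
        _ ≤ SS P nf (Q M) n (α, 1) := h2
        _ ≤ _ := by
          rw [h3]
          exact_mod_cast h4
  have := Finset.card_le_card hsub
  exact_mod_cast this

end Pool.Agent.D0H11.GO
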