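import Pool.Agent.D0H11.GO.Eng

/-! # Project GO (helper11): the first row -/

set_option autoImplicit false

namespace Pool.Agent.D0H11.GO

open Finset MeasureTheory Filter
open Pool.Agent.D0H11.GM (Sq S_MOM S_DENS S_CNT)

theorem floor_meas (A : ℝ) : MeasurableSet {α : ℝ | (⌊α * A⌋₊ + 1).Prime} := by
  have h : Measurable fun α : ℝ => ⌊α * A⌋₊ := Nat.measurable_floor.comp (measurable_id.mul_const A)
  have e : {α : ℝ | (⌊α * A⌋₊ + 1).Prime} = (fun α : ℝ => ⌊α * A⌋₊) ⁻¹' {m : ℕ | (m + 1).Prime} := rfl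
  rw [e]
  exact h (MeasurableSet.of_discrete)

theorem PM_meas (q : Fin 4 → ℕ) : MeasurableSet {α : ℝ | PM α q} := floor_meas _

theorem mem_QM {M : ℕ} {q : Fin 4 → ℕ} (hq : q ∈ QM M) : q ∈ Pool.Agent.D0H11.GM.QQ (4 * M) ∧
    7 * M ≤ q 0 ∧ 7 * M ≤ q 1 ∧ q 2 < 5 * M ∧ q 3 < 5 * M := by
  classical
  unfold QM at hq
  rw [mem_filter] at hq
  exact hq

theorem QM_bd {M : ℕ} {q : Fin 4 → ℕ} (hq : q ∈ QM M) : q 0 < 8 * M ∧ q 1 < 8 * M ∧ 4 * M ≤ q 2 ∧ 4 * M ≤ q 3 ∧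
    Odd (Pool.Agent.D0H11.GM.nn q) ∧ q 2 < 8 * M ∧ q 3 < 8 * M := by
  have h := (mem_QM hq).1
  unfold Pool.Agent.D0H11.GM.QQ at h
  rw [mem_filter, Fintype.mem_piFinset] at h
  have h0 := mem_Ico.1 (h.1 0)
  have h1 := mem_Ico.1 (h.1 1)
  have h2 := mem_Ico.1 (h.1 2)
  have h3 := mem_Ico.1 (h.1 3)
  exact ⟨by omega, by omega, by omega, by omega, h.2, by omega, by omega⟩

theorem rgA {M : ℕ} {q : Fin 4 → ℕ} (hq : q ∈ QM M) (hM : 1 ≤ M) :
    (2 : ℝ) ^ M ≤ 2 ^ (q 0 + q 1) + 2 ^ (q 2 + q 3) ∧ (2 : ℝ) ^ (q 0 + q 1) + 2 ^ (q 2 + q 3) ≤ 2 ^ (40 * M) := by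
  obtain ⟨h0, h1, h2, h3, -, h4, h5⟩ := QM_bd hq
  obtain ⟨-, g0, g1, g2, g3⟩ := mem_QM hq
  have a1 : (2 : ℝ) ^ M ≤ 2 ^ (q 0 + q 1) := pow_le_pow_right₀ (by norm_num) (by omega)
  have a2 : (0 : ℝ) < 2 ^ (q 2 + q 3) := by positivity
  have a3 : (2 : ℝ) ^ (q 0 + q 1) ≤ 2 ^ (39 * M) := pow_le_pow_right₀ (by norm_num) (by omega)
  have a4 : (2 : ℝ) ^ (q 2 + q 3) ≤ 2 ^ (39 * M) := pow_le_pow_right₀ (by norm_num) (by omega)
  have a5 : (2 : ℝ) ^ (39 * M) * 2 ≤ 2 ^ (40 * M) := by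
    rw [← pow_succ]
    exact pow_le_pow_right₀ (by norm_num) (by omega)
  exact ⟨by linarith, by linarith⟩

open Classical in
theorem twoM (hC : S_CNT) (hP : S_PUM) (hS : S_SU1) : ∃ C : ℝ, 0 < C ∧ ∀ c r : ℝ, 0 < r → r < c → ∀ᶠ M : ℕ in atTop,
      ∑ p ∈ (QM M ×ˢ QM M).filter (fun p => Pool.Agent.D0H11.GM.nn p.1 = Pool.Agent.D0H11.GM.nn p.2),
        (volume {α : ℝ | α ∈ Set.Icc (c - r) (c + r) ∧ (PM α p.1 ∧ PM α p.2)}).toReal ≤ C * r * (M : ℝ) ^ 4 := by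
  obtain ⟨C3, E, hC3, -, h2, h3⟩ := hC
  obtain ⟨C1, hC1, hP⟩ := hP
  obtain ⟨C2, hC2, hS⟩ := hS
  refine ⟨4096 * (C1 * C3) + 2 * (256 * (C2 * C3)), by positivity, fun c r hr hc => ?_⟩
  have hlog : ∀ᶠ M : ℕ in atTop, 16 * Real.log ((4 * M : ℕ) : ℝ) ^ E ≤ Real.sqrt M := by
    have h7 : (fun y : ℝ => Real.log y ^ E) =o[atTop] (fun y : ℝ => y ^ (1 / 2 : ℝ)) := by
      have := isLittleO_log_rpow_rpow_atTop (s := 1 / 2) (E : ℝ) (by norm_num)
      refine this.congr_left fun y => ?_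
      rw [Real.rpow_natCast]
    have h6 : (fun y : ℝ => Real.log y ^ E) =o[atTop] (fun y : ℝ => Real.sqrt y) := by
      refine h7.congr_right fun y => ?_
      rw [Real.sqrt_eq_rpow]
    have h4 := h6.tendsto_div_nhds_zero
    have h5 : Tendsto (fun M : ℕ => ((4 * M : ℕ) : ℝ)) atTop atTop := by
      push_cast
      exact (tendsto_natCast_atTop_atTop).const_mul_atTop (by norm_num)
    have h8 := (h4.comp h5).eventually (gt_mem_nhds (show (0 : ℝ) < 1 / 32 by norm_num))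
    filter_upwards [h8, eventually_ge_atTop 1] with M hM hM1
    have hM0 : (0 : ℝ) < M := by exact_mod_cast hM1
    have hs : 0 < Real.sqrt ((4 * M : ℕ) : ℝ) := Real.sqrt_pos.2 (by push_cast; linarith)
    simp only [Function.comp] at hM
    rw [div_lt_iff₀ hs] at hM
    have e : Real.sqrt ((4 * M : ℕ) : ℝ) = 2 * Real.sqrt M := by
      push_cast
      rw [Real.sqrt_mul (by norm_num), show (4 : ℝ) = 2 ^ 2 by norm_num, Real.sqrt_sq (by norm_num)]
    rw [e] at hM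
    linarith
  filter_upwards [hP c r hr hc, hS c r hr hc, hlog, eventually_ge_atTop 2] with M g1 g2 g3 hM2
  have hM0 : (0 : ℝ) < M := by
    have : 0 < M := by omega
    exact_mod_cast this
  have hM1 : (1 : ℝ) ≤ M := by
    have : 1 ≤ M := by omega
    exact_mod_cast this
  obtain ⟨κ, hκ⟩ : ∃ κ, κ = Nat.sqrt M + 1 := ⟨_, rfl⟩
  have hκ1 : Real.sqrt M ≤ κ := by
    rw [hκ]
    have h4 : M < (Nat.sqrt M + 1) * (Nat.sqrt M + 1) := Nat.lt_succ_sqrt M
    rw [Real.sqrt_le_left (by positivity)]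
    have : (M : ℝ) < (((Nat.sqrt M + 1) * (Nat.sqrt M + 1) : ℕ) : ℝ) := by exact_mod_cast h4
    push_cast at this ⊢
    nlinarith
  have hκ2 : (κ : ℝ) ≤ 2 * Real.sqrt M := by
    rw [hκ]
    have h4 : Nat.sqrt M * Nat.sqrt M ≤ M := Nat.sqrt_le M
    have h5 : (Nat.sqrt M : ℝ) ≤ Real.sqrt M := by
      apply Real.le_sqrt_of_sq_le
      have : ((Nat.sqrt M * Nat.sqrt M : ℕ) : ℝ) ≤ M := by exact_mod_cast h4
      push_cast at this
      nlinarith
    have h6 : 1 ≤ Real.sqrt M := by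
      apply Real.le_sqrt_of_sq_le
      linarith
    push_cast
    linarith
  have hκ0 : 1 ≤ κ := by omega
  have hκp : (0 : ℝ) < κ := by exact_mod_cast hκ0
  obtain ⟨vol, hvol⟩ : ∃ vol : (Fin 4 → ℕ) × (Fin 4 → ℕ) → ℝ, vol = fun p =>
    (volume {α : ℝ | α ∈ Set.Icc (c - r) (c + r) ∧ (PM α p.1 ∧ PM α p.2)}).toReal := ⟨_, rfl⟩
  obtain ⟨T, hT⟩ : ∃ T, T = (QM M ×ˢ QM M).filter
    (fun p => Pool.Agent.D0H11.GM.nn p.1 = Pool.Agent.D0H11.GM.nn p.2) := ⟨_, rfl⟩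
  obtain ⟨T3, hT3⟩ : ∃ T3 : ℕ → Finset ((Fin 4 → ℕ) × (Fin 4 → ℕ)), T3 = fun k => T.filter
    fun p => Pool.Agent.D0H11.GM.uu p.1 + Pool.Agent.D0H11.GM.vv p.2 = Pool.Agent.D0H11.GM.uu p.2 + Pool.Agent.D0H11.GM.vv p.1 ∧
      Pool.Agent.D0H11.GM.uu p.2 < Pool.Agent.D0H11.GM.uu p.1 + k ∧
      Pool.Agent.D0H11.GM.uu p.1 < Pool.Agent.D0H11.GM.uu p.2 + k := ⟨_, rfl⟩
  have hle : ∀ p ∈ T, vol p ≤ C1 * r / (M : ℝ) ^ 2 + (if p ∈ T3 (16 * M) then C2 * r / (M * κ) else 0) +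
      (if p ∈ T3 κ then C2 * r / M else 0) := by
    intro p hp
    have hpT := hp
    rw [hT, mem_filter, mem_product] at hp
    obtain ⟨⟨hp1, hp2⟩, hpn⟩ := hp
    have t1 : 0 ≤ C1 * r / (M : ℝ) ^ 2 := by positivity
    have t2 : 0 ≤ C2 * r / (M * κ : ℝ) := by positivity
    have t3 : 0 ≤ C2 * r / (M : ℝ) := by positivity
    have i2 : 0 ≤ (if p ∈ T3 (16 * M) then C2 * r / (M * κ : ℝ) else 0) := by
      split_ifs
      · exact t2
      · exact le_rfl
    have i3 : 0 ≤ (if p ∈ T3 κ then C2 * r / (M : ℝ) else 0) := by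
      split_ifs
      · exact t3
      · exact le_rfl
    have shift : ∀ q q' : Fin 4 → ℕ, q ∈ QM M → ∀ k : ℕ, 1 ≤ k → q' 0 + q' 1 = q 0 + q 1 + k →
        q' 2 + q' 3 = q 2 + q 3 + k →
        volume {α : ℝ | α ∈ Set.Icc (c - r) (c + r) ∧ (PM α q ∧ PM α q')} ≤ ENNReal.ofReal (C2 * r / (M * k)) := by
      intro q q' hq k hk e1 e2
      have h4 := (g2 _ (rgA hq (by omega)).1).1 k hk
      have e3 : (2 : ℝ) ^ (q' 0 + q' 1) + 2 ^ (q' 2 + q' 3) = 2 ^ k * (2 ^ (q 0 + q 1) + 2 ^ (q 2 + q 3)) := by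
        rw [e1, e2, pow_add 2 (q 0 + q 1) k, pow_add 2 (q 2 + q 3) k]
        ring
      unfold PM
      rw [e3]
      exact h4
    by_cases hd : Pool.Agent.D0H11.GM.uu p.1 + Pool.Agent.D0H11.GM.vv p.2 =
        Pool.Agent.D0H11.GM.uu p.2 + Pool.Agent.D0H11.GM.vv p.1
    · have hd' := hd
      unfold Pool.Agent.D0H11.GM.uu Pool.Agent.D0H11.GM.vv at hd'
      by_cases hk : Pool.Agent.D0H11.GM.uu p.2 < Pool.Agent.D0H11.GM.uu p.1 + κ ∧
          Pool.Agent.D0H11.GM.uu p.1 < Pool.Agent.D0H11.GM.uu p.2 + κ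
      · have hmem : p ∈ T3 κ := by
          rw [hT3]
          simp only [mem_filter]
          exact ⟨hpT, hd, hk.1, hk.2⟩
        have h4 : vol p ≤ C2 * r / M := by
          rw [hvol]
          have h5 := (g2 _ (rgA hp1 (by omega)).1).2
          have h6 : volume {α : ℝ | α ∈ Set.Icc (c - r) (c + r) ∧ (PM α p.1 ∧ PM α p.2)} ≤
              ENNReal.ofReal (C2 * r / M) :=
            (measure_mono (show {α : ℝ | α ∈ Set.Icc (c - r) (c + r) ∧ (PM α p.1 ∧ PM α p.2)} ⊆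
              {α : ℝ | α ∈ Set.Icc (c - r) (c + r) ∧ (⌊α * (2 ^ (p.1 0 + p.1 1) + 2 ^ (p.1 2 + p.1 3))⌋₊ + 1).Prime} from
                fun a ha => ⟨ha.1, ha.2.1⟩)).trans h5
          exact ENNReal.toReal_le_of_le_ofReal t3 h6
        rw [if_pos hmem]
        linarith
      · have b1 : ∀ q ∈ QM M, Pool.Agent.D0H11.GM.uu q < 16 * M := by
          intro q hq
          obtain ⟨h0, h1, -⟩ := QM_bd hq
          unfold Pool.Agent.D0H11.GM.uu
          omega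
        have b2 := b1 _ hp1
        have b3 := b1 _ hp2
        have hmem : p ∈ T3 (16 * M) := by
          rw [hT3]
          simp only [mem_filter]
          exact ⟨hpT, hd, by omega, by omega⟩
        have h4 : vol p ≤ C2 * r / (M * κ) := by
          rw [hvol]
          rw [not_and_or, not_lt, not_lt] at hk
          unfold Pool.Agent.D0H11.GM.uu at hk
          rcases hk with hk | hk
          · have h5 := shift p.1 p.2 hp1 (p.2 0 + p.2 1 - (p.1 0 + p.1 1)) (by omega) (by omega) (by omega)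
            have h7 : C2 * r / (M * ((p.2 0 + p.2 1 - (p.1 0 + p.1 1) : ℕ) : ℝ)) ≤ C2 * r / (M * κ) := by
              apply div_le_div_of_nonneg_left (by positivity) (by positivity)
              apply mul_le_mul_of_nonneg_left _ hM0.le
              have : κ ≤ p.2 0 + p.2 1 - (p.1 0 + p.1 1) := by omega
              exact_mod_cast this
            exact (ENNReal.toReal_le_of_le_ofReal (by positivity) h5).trans h7
          · have h5 := shift p.2 p.1 hp2 (p.1 0 + p.1 1 - (p.2 0 + p.2 1)) (by omega) (by omega) (by omega)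
            have h6 : {α : ℝ | α ∈ Set.Icc (c - r) (c + r) ∧ (PM α p.1 ∧ PM α p.2)} =
                {α : ℝ | α ∈ Set.Icc (c - r) (c + r) ∧ (PM α p.2 ∧ PM α p.1)} := by
              ext a
              simp only [Set.mem_ofPred_eq]
              tauto
            have h7 : C2 * r / (M * ((p.1 0 + p.1 1 - (p.2 0 + p.2 1) : ℕ) : ℝ)) ≤ C2 * r / (M * κ) := by
              apply div_le_div_of_nonneg_left (by positivity) (by positivity)
              apply mul_le_mul_of_nonneg_left _ hM0.le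
              have : κ ≤ p.1 0 + p.1 1 - (p.2 0 + p.2 1) := by omega
              exact_mod_cast this
            simp only [h6]
            exact (ENNReal.toReal_le_of_le_ofReal (by positivity) h5).trans h7
        rw [if_pos hmem]
        linarith
    · have h4 : vol p ≤ C1 * r / (M : ℝ) ^ 2 := by
        rw [hvol]
        exact ENNReal.toReal_le_of_le_ofReal t1 (g1 p.1 hp1 p.2 hp2 hd)
      linarith
  have hsum : ∑ p ∈ T, vol p ≤ T.card * (C1 * r / (M : ℝ) ^ 2) + (T3 (16 * M)).card * (C2 * r / (M * κ)) +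
      (T3 κ).card * (C2 * r / M) := by
    refine (Finset.sum_le_sum hle).trans ?_
    rw [Finset.sum_add_distrib, Finset.sum_add_distrib, Finset.sum_const, nsmul_eq_mul]
    have hsub : ∀ k, T3 k ⊆ T := by
      intro k
      rw [hT3]
      exact Finset.filter_subset _ _
    have hs : ∀ (k : ℕ) (y : ℝ), ∑ p ∈ T, (if p ∈ T3 k then y else 0) = (T3 k).card * y := by
      intro k y
      rw [Finset.sum_ite_mem, Finset.inter_eq_right.2 (hsub k), Finset.sum_const, nsmul_eq_mul]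
    rw [hs, hs]
  have hTc : (T.card : ℝ) ≤ C3 * ((4 * M : ℕ) : ℝ) ^ 6 := by
    refine le_trans ?_ (h2 (4 * M) (by omega))
    have hsub : T ⊆ ((Pool.Agent.D0H11.GM.QQ (4 * M) ×ˢ Pool.Agent.D0H11.GM.QQ (4 * M)).filter
        fun p => Pool.Agent.D0H11.GM.nn p.1 = Pool.Agent.D0H11.GM.nn p.2) := by
      intro p hp
      rw [hT, mem_filter, mem_product] at hp
      rw [mem_filter, mem_product]
      exact ⟨⟨(mem_QM hp.1.1).1, (mem_QM hp.1.2).1⟩, hp.2⟩
    have := Finset.card_le_card hsub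
    exact_mod_cast this
  have hT3c : ∀ k : ℕ, 1 ≤ k → ((T3 k).card : ℝ) ≤ C3 * k * ((4 * M : ℕ) : ℝ) ^ 4 * Real.log ((4 * M : ℕ) : ℝ) ^ E := by
    intro k hk
    refine le_trans ?_ (h3 (4 * M) k (by omega) hk)
    have hsub : T3 k ⊆ ((Pool.Agent.D0H11.GM.QQ (4 * M) ×ˢ Pool.Agent.D0H11.GM.QQ (4 * M)).filter
        fun p => Pool.Agent.D0H11.GM.nn p.1 = Pool.Agent.D0H11.GM.nn p.2 ∧
      Pool.Agent.D0H11.GM.uu p.1 + Pool.Agent.D0H11.GM.vv p.2 = Pool.Agent.D0H11.GM.uu p.2 + Pool.Agent.D0H11.GM.vv p.1 ∧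
      Pool.Agent.D0H11.GM.uu p.2 < Pool.Agent.D0H11.GM.uu p.1 + k ∧
      Pool.Agent.D0H11.GM.uu p.1 < Pool.Agent.D0H11.GM.uu p.2 + k) := by
      intro p hp
      rw [hT3] at hp
      simp only [mem_filter] at hp
      obtain ⟨hp, hp'⟩ := hp
      rw [hT, mem_filter, mem_product] at hp
      rw [mem_filter, mem_product]
      exact ⟨⟨(mem_QM hp.1.1).1, (mem_QM hp.1.2).1⟩, hp.2, hp'⟩
    have := Finset.card_le_card hsub
    exact_mod_cast this
  obtain ⟨LL, hLL⟩ : ∃ LL : ℝ, LL = Real.log ((4 * M : ℕ) : ℝ) ^ E := ⟨_, rfl⟩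
  rw [← hLL] at g3
  simp only [← hLL] at hT3c
  have hL0 : 0 ≤ LL := by
    rw [hLL]
    have := Real.log_natCast_nonneg (4 * M)
    positivity
  have hsq0 : 0 < Real.sqrt M := Real.sqrt_pos.2 hM0
  have hsq : Real.sqrt M * Real.sqrt M = M := Real.mul_self_sqrt hM0.le
  have a1 : T.card * (C1 * r / (M : ℝ) ^ 2) ≤ 4096 * (C1 * C3) * (r * (M : ℝ) ^ 4) := by
    calc T.card * (C1 * r / (M : ℝ) ^ 2) ≤ (C3 * ((4 * M : ℕ) : ℝ) ^ 6) * (C1 * r / (M : ℝ) ^ 2) :=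
          mul_le_mul_of_nonneg_right hTc (by positivity)
      _ = _ := by
          push_cast
          field_simp
          ring
  have a2 : (T3 (16 * M)).card * (C2 * r / (M * κ)) ≤ 256 * (C2 * C3) * (r * (M : ℝ) ^ 4) := by
    have h4 := hT3c (16 * M) (by omega)
    push_cast at h4
    calc (T3 (16 * M)).card * (C2 * r / (M * κ)) ≤
        (C3 * (16 * M) * (4 * (M : ℝ)) ^ 4 * LL) * (C2 * r / (M * κ)) :=
          mul_le_mul_of_nonneg_right h4 (by positivity)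
      _ = 256 * (C2 * C3) * (r * (M : ℝ) ^ 4) * (16 * LL / κ) := by
          field_simp
          ring
      _ ≤ 256 * (C2 * C3) * (r * (M : ℝ) ^ 4) * 1 := by
          refine mul_le_mul_of_nonneg_left ?_ (by positivity)
          rw [div_le_one hκp]
          linarith
      _ = _ := mul_one _
  have a3 : (T3 κ).card * (C2 * r / M) ≤ 256 * (C2 * C3) * (r * (M : ℝ) ^ 4) := by
    have h4 := hT3c κ hκ0
    push_cast at h4
    calc (T3 κ).card * (C2 * r / M) ≤ (C3 * κ * (4 * (M : ℝ)) ^ 4 * LL) * (C2 * r / M) :=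
          mul_le_mul_of_nonneg_right h4 (by positivity)
      _ = 256 * (C2 * C3) * (r * (M : ℝ) ^ 4) * (κ * LL / M) := by
          field_simp
          ring
      _ ≤ 256 * (C2 * C3) * (r * (M : ℝ) ^ 4) * 1 := by
          refine mul_le_mul_of_nonneg_left ?_ (by positivity)
          rw [div_le_one hM0]
          calc (κ : ℝ) * LL ≤ (2 * Real.sqrt M) * (Real.sqrt M / 16) := by
                apply mul_le_mul hκ2 _ hL0 (by positivity)
                linarith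
            _ = (Real.sqrt M * Real.sqrt M) / 8 := by ring
            _ ≤ M := by
                rw [hsq]
                linarith
      _ = _ := mul_one _
  have hfinal : ∑ p ∈ T, vol p ≤ (4096 * (C1 * C3) + 2 * (256 * (C2 * C3))) * r * (M : ℝ) ^ 4 := by
    refine hsum.trans ?_
    have : (4096 * (C1 * C3) + 2 * (256 * (C2 * C3))) * r * (M : ℝ) ^ 4 = 4096 * (C1 * C3) * (r * (M : ℝ) ^ 4) +
        256 * (C2 * C3) * (r * (M : ℝ) ^ 4) + 256 * (C2 * C3) * (r * (M : ℝ) ^ 4) := by ring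
    rw [this]
    linarith
  rw [hvol, hT] at hfinal
  exact hfinal

open Classical in
theorem mainM (hC : S_CNT) (hN : S_CNTM) (hP : S_PUM) (hS : S_SU1) (hO : S_ONE1) (hM : S_MOM) (hDn : S_DENS) :
    ∃ c : ℝ, 0 < c ∧ ∀ᵐ α : ℝ, 0 < α → ∃ᶠ N : ℕ in atTop, c * N ≤
      ((((range N).filter fun n => Odd n ∧ c * Real.sqrt N ≤
        (({q : Fin 4 → ℕ | Pool.Agent.D0H11.GM.nn q = n ∧ PM α q}.ncard : ℕ) : ℝ)).card : ℕ) : ℝ) := by
  refine eng PM PM_meas QM Pool.Agent.D0H11.GM.nn 4 (by norm_num) ?_ (fun M q hq => (QM_bd hq).2.2.2.2.1) ?_ hN ?_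
    (twoM hC hP hS) hM hDn
  · intro M q hq
    obtain ⟨h0, h1, -, -, -, h2, h3⟩ := QM_bd hq
    have k : ∀ x : ℕ, x < 8 * M → x ^ 2 < 64 * M ^ 2 := by
      intro x hx
      nlinarith
    have k0 := k _ h0
    have k1 := k _ h1
    have k2 := k _ h2
    have k3 := k _ h3
    have e : 16 * (4 * M) ^ 2 = 4 * (64 * M ^ 2) := by ring
    unfold Pool.Agent.D0H11.GM.nn
    omega
  · intro q i
    have : q i ≤ q i ^ 2 := Nat.le_self_pow (by norm_num) _
    unfold Pool.Agent.D0H11.GM.nn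
    fin_cases i <;> simp at this ⊢ <;> omega
  · obtain ⟨c₀, hc₀, h⟩ := hO
    refine ⟨c₀, hc₀, fun c r hr hc => ?_⟩
    filter_upwards [h c r hr hc, eventually_ge_atTop 1] with M hM hM1 q hq
    exact hM _ (rgA hq hM1).1 (rgA hq hM1).2

end Pool.Agent.D0H11.GO
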