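import Pool.Agent.D0H11.GO.FinM

/-! # Project GO (helper11): the second row -/

set_option autoImplicit false

namespace Pool.Agent.D0H11.GO

open Finset MeasureTheory Filter
open Pool.Agent.D0H11.GM (Sq S_MOM S_DENS)
open Pool.Agent.D0H11.GY (S_CNT2)

theorem PY_meas (q : Fin 4 → ℕ) : MeasurableSet {α : ℝ | PY α q} := floor_meas _

theorem mem_QY {M : ℕ} {q : Fin 4 → ℕ} (hq : q ∈ QY M) : q ∈ Pool.Agent.D0H11.GY.QQ (20 * M) ∧
    29 * M ≤ q 0 ∧ 25 * M ≤ q 1 ∧ q 1 < 26 * M ∧ 21 * M ≤ q 2 ∧ q 2 < 22 * M := by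
  classical
  unfold QY at hq
  rw [mem_filter] at hq
  exact hq

theorem QY_bd {M : ℕ} {q : Fin 4 → ℕ} (hq : q ∈ QY M) : q 0 < 30 * M ∧ q 3 < 30 * M ∧
    Odd (Pool.Agent.D0H11.GY.nn q) := by
  have h := (mem_QY hq).1
  unfold Pool.Agent.D0H11.GY.QQ at h
  rw [mem_filter, Fintype.mem_piFinset] at h
  have h0 := mem_Ico.1 (h.1 0)
  have h3 := mem_Ico.1 (h.1 3)
  exact ⟨by omega, by omega, h.2⟩

theorem rgY {M : ℕ} {q : Fin 4 → ℕ} (hq : q ∈ QY M) (hM : 1 ≤ M) :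
    (2 : ℝ) ^ M ≤ 2 ^ q 0 + 2 ^ q 1 + 2 ^ q 2 ∧ (2 : ℝ) ^ q 0 + 2 ^ q 1 + 2 ^ q 2 ≤ 2 ^ (40 * M) := by
  obtain ⟨h0, -, -⟩ := QY_bd hq
  obtain ⟨-, g0, g1, g2, g3, g4⟩ := mem_QY hq
  have a1 : (2 : ℝ) ^ M ≤ 2 ^ q 0 := pow_le_pow_right₀ (by norm_num) (by omega)
  have a2 : (0 : ℝ) < 2 ^ q 1 := by positivity
  have a2' : (0 : ℝ) < 2 ^ q 2 := by positivity
  have a3 : (2 : ℝ) ^ q 0 ≤ 2 ^ (38 * M) := pow_le_pow_right₀ (by norm_num) (by omega)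
  have a4 : (2 : ℝ) ^ q 1 ≤ 2 ^ (38 * M) := pow_le_pow_right₀ (by norm_num) (by omega)
  have a4' : (2 : ℝ) ^ q 2 ≤ 2 ^ (38 * M) := pow_le_pow_right₀ (by norm_num) (by omega)
  have a5 : (2 : ℝ) ^ (38 * M) * 4 ≤ 2 ^ (40 * M) := by
    have : (2 : ℝ) ^ (38 * M) * 4 = 2 ^ (38 * M + 2) := by
      rw [pow_add]
      norm_num
    rw [this]
    exact pow_le_pow_right₀ (by norm_num) (by omega)
  have a6 : (0 : ℝ) < 2 ^ (38 * M) := by positivity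
  exact ⟨by linarith, by linarith⟩

open Classical in
theorem twoY (hC : S_CNT2) (hN : S_CNTY) (hP : S_PUY) (hS : S_SU1) : ∃ C : ℝ, 0 < C ∧ ∀ c r : ℝ, 0 < r → r < c →
    ∀ᶠ M : ℕ in atTop,
      ∑ p ∈ (QY M ×ˢ QY M).filter (fun p => Pool.Agent.D0H11.GY.nn p.1 = Pool.Agent.D0H11.GY.nn p.2),
        (volume {α : ℝ | α ∈ Set.Icc (c - r) (c + r) ∧ (PY α p.1 ∧ PY α p.2)}).toReal ≤ C * r * (M : ℝ) ^ 4 := by
  obtain ⟨C3, hC3, -, h2, -⟩ := hC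
  obtain ⟨C4, hC4, -, h3⟩ := hN
  obtain ⟨C1, hC1, hP⟩ := hP
  obtain ⟨C2, hC2, hS⟩ := hS
  refine ⟨64000000 * (C1 * C3) + C2 * C4, by positivity, fun c r hr hc => ?_⟩
  filter_upwards [hP c r hr hc, hS c r hr hc, eventually_ge_atTop 2] with M g1 g2 hM2
  have hM0 : (0 : ℝ) < M := by
    have : 0 < M := by omega
    exact_mod_cast this
  obtain ⟨vol, hvol⟩ : ∃ vol : (Fin 4 → ℕ) × (Fin 4 → ℕ) → ℝ, vol = fun p =>
    (volume {α : ℝ | α ∈ Set.Icc (c - r) (c + r) ∧ (PY α p.1 ∧ PY α p.2)}).toReal := ⟨_, rfl⟩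
  obtain ⟨T, hT⟩ : ∃ T, T = (QY M ×ˢ QY M).filter
    (fun p => Pool.Agent.D0H11.GY.nn p.1 = Pool.Agent.D0H11.GY.nn p.2) := ⟨_, rfl⟩
  obtain ⟨T3, hT3⟩ : ∃ T3 : Finset ((Fin 4 → ℕ) × (Fin 4 → ℕ)), T3 = ((QY M ×ˢ QY M).filter fun p =>
    Pool.Agent.D0H11.GY.nn p.1 = Pool.Agent.D0H11.GY.nn p.2 ∧
    p.1 0 + p.2 1 = p.2 0 + p.1 1 ∧ p.1 0 + p.2 2 = p.2 0 + p.1 2) := ⟨_, rfl⟩
  have hle : ∀ p ∈ T, vol p ≤ C1 * r / (M : ℝ) ^ 2 + (if p ∈ T3 then C2 * r / M else 0) := by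
    intro p hp
    rw [hT, mem_filter, mem_product] at hp
    obtain ⟨⟨hp1, hp2⟩, hpn⟩ := hp
    have t1 : 0 ≤ C1 * r / (M : ℝ) ^ 2 := by positivity
    have t3 : 0 ≤ C2 * r / (M : ℝ) := by positivity
    by_cases hd : p.1 0 + p.2 1 = p.2 0 + p.1 1 ∧ p.1 0 + p.2 2 = p.2 0 + p.1 2
    · have hmem : p ∈ T3 := by
        rw [hT3, mem_filter, mem_product]
        exact ⟨⟨hp1, hp2⟩, hpn, hd⟩
      have h4 : vol p ≤ C2 * r / M := by
        rw [hvol]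
        have h5 := (g2 _ (rgY hp1 (by omega)).1).2
        have h6 : volume {α : ℝ | α ∈ Set.Icc (c - r) (c + r) ∧ (PY α p.1 ∧ PY α p.2)} ≤
            ENNReal.ofReal (C2 * r / M) :=
          (measure_mono (show {α : ℝ | α ∈ Set.Icc (c - r) (c + r) ∧ (PY α p.1 ∧ PY α p.2)} ⊆
            {α : ℝ | α ∈ Set.Icc (c - r) (c + r) ∧ (⌊α * (2 ^ p.1 0 + 2 ^ p.1 1 + 2 ^ p.1 2)⌋₊ + 1).Prime} from
              fun a ha => ⟨ha.1, ha.2.1⟩)).trans h5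
        exact ENNReal.toReal_le_of_le_ofReal t3 h6
      rw [if_pos hmem]
      linarith
    · have h4 : vol p ≤ C1 * r / (M : ℝ) ^ 2 := by
        rw [hvol]
        exact ENNReal.toReal_le_of_le_ofReal t1 (g1 p.1 hp1 p.2 hp2 hd)
      have i3 : 0 ≤ (if p ∈ T3 then C2 * r / (M : ℝ) else 0) := by
        split_ifs
        · exact t3
        · exact le_rfl
      linarith
  have hsum : ∑ p ∈ T, vol p ≤ T.card * (C1 * r / (M : ℝ) ^ 2) + T3.card * (C2 * r / M) := by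
    refine (Finset.sum_le_sum hle).trans ?_
    rw [Finset.sum_add_distrib, Finset.sum_const, nsmul_eq_mul]
    have hsub : T3 ⊆ T := by
      intro p hp
      rw [hT3, mem_filter] at hp
      rw [hT, mem_filter]
      exact ⟨hp.1, hp.2.1⟩
    rw [Finset.sum_ite_mem, Finset.inter_eq_right.2 hsub, Finset.sum_const, nsmul_eq_mul]
  have hTc : (T.card : ℝ) ≤ C3 * ((20 * M : ℕ) : ℝ) ^ 6 := by
    refine le_trans ?_ (h2 (20 * M) (by omega))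
    have hsub : T ⊆ ((Pool.Agent.D0H11.GY.QQ (20 * M) ×ˢ Pool.Agent.D0H11.GY.QQ (20 * M)).filter
        fun p => Pool.Agent.D0H11.GY.nn p.1 = Pool.Agent.D0H11.GY.nn p.2) := by
      intro p hp
      rw [hT, mem_filter, mem_product] at hp
      rw [mem_filter, mem_product]
      exact ⟨⟨(mem_QY hp.1.1).1, (mem_QY hp.1.2).1⟩, hp.2⟩
    have := Finset.card_le_card hsub
    exact_mod_cast this
  have hT3c : (T3.card : ℝ) ≤ C4 * (M : ℝ) ^ 5 := by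
    rw [hT3]
    exact h3 M hM2
  have a1 : T.card * (C1 * r / (M : ℝ) ^ 2) ≤ 64000000 * (C1 * C3) * (r * (M : ℝ) ^ 4) := by
    calc T.card * (C1 * r / (M : ℝ) ^ 2) ≤ (C3 * ((20 * M : ℕ) : ℝ) ^ 6) * (C1 * r / (M : ℝ) ^ 2) :=
          mul_le_mul_of_nonneg_right hTc (by positivity)
      _ = _ := by
          push_cast
          field_simp
          ring
  have a3 : T3.card * (C2 * r / M) ≤ C2 * C4 * (r * (M : ℝ) ^ 4) := by
    calc T3.card * (C2 * r / M) ≤ (C4 * (M : ℝ) ^ 5) * (C2 * r / M) :=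
          mul_le_mul_of_nonneg_right hT3c (by positivity)
      _ = _ := by
          field_simp
  have hfinal : ∑ p ∈ T, vol p ≤ (64000000 * (C1 * C3) + C2 * C4) * r * (M : ℝ) ^ 4 := by
    refine hsum.trans ?_
    have : (64000000 * (C1 * C3) + C2 * C4) * r * (M : ℝ) ^ 4 = 64000000 * (C1 * C3) * (r * (M : ℝ) ^ 4) +
        C2 * C4 * (r * (M : ℝ) ^ 4) := by ring
    rw [this]
    linarith
  rw [hvol, hT] at hfinal
  exact hfinal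

open Classical in
theorem mainY (hC : S_CNT2) (hN : S_CNTY) (hP : S_PUY) (hS : S_SU1) (hO : S_ONE1) (hM : S_MOM) (hDn : S_DENS) :
    ∃ c : ℝ, 0 < c ∧ ∀ᵐ α : ℝ, 0 < α → ∃ᶠ N : ℕ in atTop, c * N ≤
      ((((range N).filter fun n => Odd n ∧ c * Real.sqrt N ≤
        (({q : Fin 4 → ℕ | Pool.Agent.D0H11.GY.nn q = n ∧ PY α q}.ncard : ℕ) : ℝ)).card : ℕ) : ℝ) := by
  refine eng PY PY_meas QY Pool.Agent.D0H11.GY.nn 20 (by norm_num) ?_ (fun M q hq => (QY_bd hq).2.2) ?_ ?_ ?_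
    (twoY hC hN hP hS) hM hDn
  · intro M q hq
    obtain ⟨h0, h1, -⟩ := QY_bd hq
    obtain ⟨-, g0, g1, g2, g3, g4⟩ := mem_QY hq
    have k : ∀ x : ℕ, x < 30 * M → x ^ 2 < 900 * M ^ 2 := by
      intro x hx
      nlinarith
    have k0 := k _ h0
    have k1 := k (q 1) (by omega)
    have k2 := k (q 2) (by omega)
    have k3 := k _ h1
    have e : 16 * (20 * M) ^ 2 = 6400 * M ^ 2 := by ring
    unfold Pool.Agent.D0H11.GY.nn
    rw [e]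
    omega
  · intro q i
    have : q i ≤ q i ^ 2 := Nat.le_self_pow (by norm_num) _
    unfold Pool.Agent.D0H11.GY.nn
    fin_cases i <;> simp at this ⊢ <;> omega
  · obtain ⟨C, hC0, h, -⟩ := hN
    refine ⟨1 / C, by positivity, fun M hM => ?_⟩
    rw [one_div, inv_mul_le_iff₀ hC0]
    exact h M hM
  · obtain ⟨c₀, hc₀, h⟩ := hO
    refine ⟨c₀, hc₀, fun c r hr hc => ?_⟩
    filter_upwards [h c r hr hc, eventually_ge_atTop 1] with M hM hM1 q hq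
    exact hM _ (rgY hq hM1).1 (rgY hq hM1).2

end Pool.Agent.D0H11.GO
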