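import Pool.Agent.D0H11.GM.Stm
import Pool.Agent.D0H11.GY.Stm

/-!
# Project GO (helper11): statements; Mathlib only. MP_1e1427_nt and MP_f6c7cf_nt, ONE real parameter.

For almost every `α > 0`, for infinitely many `N` at least `c N` odd `n < N` have at least `c √N` quadruples
`n = x² + y² + z² + w²` (resp. `x² + y² + z² + 4 w²`) for which `⌊α (2 ^ (x+y) + 2 ^ (z+w))⌋ + 1`
(resp. `⌊α (2 ^ x + 2 ^ y + 2 ^ z)⌋ + 1`) is prime. Everything of GM is reused (`S_BTM`, `S_CNT`, `S_MOM`, `S_DENS`); the sets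
of parameters are 1D sets times the `β`-interval.
-/

set_option autoImplicit false

namespace Pool.Agent.D0H11.GO

open Finset MeasureTheory Filter

/-- 1. EQ (fast-slow averaging). `α A` is the fast variable, `α B` the slow one.

Proof. Let `Q = e e'`, `G (L, w) = 1` if `e ∣ ⌊L⌋ + 1` and `e' ∣ ⌊2^k L + w⌋ + 1`, else `0`; `Q`-periodic in `L` and in `w`. Divide
`[s, t]` into cells `[i Q / A, (i + 1) Q / A)` (two incomplete ones at the ends: measure `≤ 2 Q / A ≤ 2 Q / |B|`). In a cell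
`L = α A` runs once through a period and `w = α B` varies by at most `Q |B| / A`; replacing `w` by its value `w_i` at the left end
costs at most `(1/A) 2^(-k) (2^k Q / e') 2 (Q |B| / A)`, because for `|w - w'| ≤ η` the set of the `v = 2^k L` modulo `e'` with
`e' ∣ ⌊v + w⌋ + 1`, `¬ e' ∣ ⌊v + w'⌋ + 1` or conversely is contained in two intervals of length `η` per period `e'`. So the cell
gives `(Q / A) Φ (w_i)` up to this, `Φ w = (1/Q) ∫_0^Q G (L, w) dL`, `|Φ w - Φ w'| ≤ 2 |w - w'| / e'`, and the sum over the cells is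
`∫_s^t Φ (α B) dα` up to `C Q (t - s + Q/A) |B| / A + 2 Q / A`. `Φ` is `e'`-periodic with mean `1 / (e e')` (for fixed `L` a proportion
`1 / e'` of the `w`), so this integral is `(t - s) / (e e')` up to `2 e' / |B|`. -/
def S_EQ : Prop := ∃ K : ℝ, 0 < K ∧ ∀ (A B s t : ℝ) (k e e' : ℕ), 0 < A → B ≠ 0 → |B| ≤ A → s ≤ t → 1 ≤ e → 1 ≤ e' →
  |(volume {α : ℝ | α ∈ Set.Icc s t ∧ (e : ℤ) ∣ ⌊α * A⌋ + 1 ∧ (e' : ℤ) ∣ ⌊α * (2 ^ k * A + B)⌋ + 1}).toReal -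
      (t - s) / ((e : ℝ) * e')| ≤
    K * ((e : ℝ) * e') ^ 2 * (t - s + 1) * (|B| / A + 1 / |B|)

/-- 2. SEL: Selberg's weights.

Proof. Library `Pool/Agent/Helper923/PPS/Selberg.lean`: `selW` with `selW_one`, `selW_eq_zero`, `abs_selW_le`, `mainSum_selW`, for
the density `ν d = 1 / d` and all primes `≤ z` (example of use: `Pool/Agent/Helper923/PPS/BT.lean`), and
`selS ≥ ∑_{l ≤ z} μ² l / φ l ≥ log z`. -/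
def S_SEL : Prop := ∃ C : ℝ, 0 < C ∧ ∀ z : ℕ, 2 ≤ z → ∃ lam : ℕ → ℝ, lam 1 = 1 ∧ (∀ d, |lam d| ≤ 1) ∧
  (∀ d, z < d → lam d = 0) ∧
  0 ≤ ∑ d ∈ Icc 1 z, ∑ d' ∈ Icc 1 z, lam d * lam d' / (Nat.lcm d d' : ℝ) ∧
  ∑ d ∈ Icc 1 z, ∑ d' ∈ Icc 1 z, lam d * lam d' / (Nat.lcm d d' : ℝ) ≤ C / Real.log z

/-- 3. PD (uses 1, 2): two numbers `⌊α A⌋ + 1`, `⌊α (2^k A + B)⌋ + 1`, upper bound.

Proof. `z = 2 ^ ⌊M/40⌋`. Both numbers are `≥ (c - r) 2^M - … > z` for large `M` (`2^k A + B ≥ A / 2`). If `P` is a prime `> z` then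
`(∑_{d ≤ z, d ∣ P} lam d)² = 1`. So the measure is at most
`∫_{c-r}^{c+r} (∑_{d ∣ P} lam d)² (∑_{d ∣ P'} lam d)² dα = ∑ lam d₁ lam d₂ lam d₃ lam d₄ |{α : lcm d₁ d₂ ∣ P, lcm d₃ d₄ ∣ P'}|`, by EQ with
`e = lcm d₁ d₂`, `e' = lcm d₃ d₄ ≤ z²` equal to `2 r (∑ ∑ lam d lam d' / lcm d d')²` up to
`z⁴ K z⁸ (2 r + 1) 2 · 2^(-M)`; the sum is in `[0, C / log z] ⊆ [0, C' / M]`. -/
def S_PD : Prop := ∃ C : ℝ, 0 < C ∧ ∀ c r : ℝ, 0 < r → r < c → ∀ᶠ M : ℕ in atTop, ∀ (A B : ℝ) (k : ℕ),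
  (2 : ℝ) ^ M ≤ |B| → |B| * 2 ^ M ≤ A →
    volume {α : ℝ | α ∈ Set.Icc (c - r) (c + r) ∧ (⌊α * A⌋₊ + 1).Prime ∧ (⌊α * (2 ^ k * A + B)⌋₊ + 1).Prime} ≤
      ENNReal.ofReal (C * r / (M : ℝ) ^ 2)

/-- 4. SU1 (uses `GM.S_BTM`; the slices of `Pool.Agent.D0H10.GM.t_SU`): the numbers `⌊α A⌋ + 1` and `⌊α 2^k A⌋ + 1`. -/
def S_SU1 : Prop := ∃ C : ℝ, 0 < C ∧ ∀ c r : ℝ, 0 < r → r < c → ∀ᶠ M : ℕ in atTop, ∀ A : ℝ, (2 : ℝ) ^ M ≤ A →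
  (∀ k : ℕ, 1 ≤ k → volume {α : ℝ | α ∈ Set.Icc (c - r) (c + r) ∧ (⌊α * A⌋₊ + 1).Prime ∧
      (⌊α * (2 ^ k * A)⌋₊ + 1).Prime} ≤ ENNReal.ofReal (C * r / (M * k))) ∧
  volume {α : ℝ | α ∈ Set.Icc (c - r) (c + r) ∧ (⌊α * A⌋₊ + 1).Prime} ≤ ENNReal.ofReal (C * r / M)

/-- 5. ONE1 (the slices of `Pool.Agent.D0H8.GM.t_ONE`): lower bound for one number. -/
def S_ONE1 : Prop := ∃ c₀ : ℝ, 0 < c₀ ∧ ∀ c r : ℝ, 0 < r → r < c → ∀ᶠ M : ℕ in atTop, ∀ A : ℝ, (2 : ℝ) ^ M ≤ A →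
  A ≤ 2 ^ (40 * M) →
    ENNReal.ofReal (c₀ * r / M) ≤ volume {α : ℝ | α ∈ Set.Icc (c - r) (c + r) ∧ (⌊α * A⌋₊ + 1).Prime}

open Classical in
/-- the quadruples of the first row: `x, y ∈ [7 M, 8 M)`, `z, w ∈ [4 M, 5 M)`, `n` odd -/
noncomputable def QM (M : ℕ) : Finset (Fin 4 → ℕ) :=
  (Pool.Agent.D0H11.GM.QQ (4 * M)).filter fun q => 7 * M ≤ q 0 ∧ 7 * M ≤ q 1 ∧ q 2 < 5 * M ∧ q 3 < 5 * M

open Classical in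
/-- the quadruples of the second row: `x ∈ [29 M, 30 M)`, `y ∈ [25 M, 26 M)`, `z ∈ [21 M, 22 M)`, `w ∈ [20 M, 30 M)`, `n` odd -/
noncomputable def QY (M : ℕ) : Finset (Fin 4 → ℕ) :=
  (Pool.Agent.D0H11.GY.QQ (20 * M)).filter fun q => 29 * M ≤ q 0 ∧ 25 * M ≤ q 1 ∧ q 1 < 26 * M ∧ 21 * M ≤ q 2 ∧ q 2 < 22 * M

/-- 6. CNTM, CNTY (5 min each): lower bounds for the numbers of the quadruples (for the second row also the pairs with the same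
differences: `x' = x + k`, `y' = y + k`, `z' = z + k` and `n = n'` determine `w'`, so there are at most `|QY| · 20 M` such pairs). -/
def S_CNTM : Prop := ∃ c : ℝ, 0 < c ∧ ∀ M : ℕ, 2 ≤ M → c * (M : ℝ) ^ 4 ≤ ((QM M).card : ℝ)

open Classical in
def S_CNTY : Prop := ∃ C : ℝ, 0 < C ∧ (∀ M : ℕ, 2 ≤ M → (M : ℝ) ^ 4 ≤ C * ((QY M).card : ℝ)) ∧
  ∀ M : ℕ, 2 ≤ M → ((((QY M ×ˢ QY M).filter fun p => Pool.Agent.D0H11.GY.nn p.1 = Pool.Agent.D0H11.GY.nn p.2 ∧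
    p.1 0 + p.2 1 = p.2 0 + p.1 1 ∧ p.1 0 + p.2 2 = p.2 0 + p.1 2).card : ℕ) : ℝ) ≤ C * (M : ℝ) ^ 5

/-- `⌊α (2 ^ (x+y) + 2 ^ (z+w))⌋ + 1` is prime -/
def PM (α : ℝ) (q : Fin 4 → ℕ) : Prop := (⌊α * (2 ^ (q 0 + q 1) + 2 ^ (q 2 + q 3))⌋₊ + 1).Prime

/-- `⌊α (2 ^ x + 2 ^ y + 2 ^ z)⌋ + 1` is prime -/
def PY (α : ℝ) (q : Fin 4 → ℕ) : Prop := (⌊α * (2 ^ q 0 + 2 ^ q 1 + 2 ^ q 2)⌋₊ + 1).Prime

/-- 7. PUM (S_PD → S_PUM). Proof. By symmetry `u = q 0 + q 1 ≤ u' = u + k`; `v = q 2 + q 3`; `A = 2^u + 2^v`,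
`2^u' + 2^v' = 2^k A + B`, `B = 2^v' - 2^(v+k) ≠ 0`, `2^(8M) ≤ |B| ≤ 2^(12 M + 1)`, `A ≥ 2^(14 M)`. -/
def S_PUM : Prop := ∃ C : ℝ, 0 < C ∧ ∀ c r : ℝ, 0 < r → r < c → ∀ᶠ M : ℕ in atTop, ∀ q ∈ QM M, ∀ q' ∈ QM M,
  q 0 + q 1 + (q' 2 + q' 3) ≠ q' 0 + q' 1 + (q 2 + q 3) →
    volume {α : ℝ | α ∈ Set.Icc (c - r) (c + r) ∧ PM α q ∧ PM α q'} ≤ ENNReal.ofReal (C * r / (M : ℝ) ^ 2)

/-- 8. PUY (S_PD → S_PUY). Proof. By symmetry `x' = x + k`, `k ≥ 0`, `k < M`; `A = 2^x + 2^y + 2^z ≥ 2^(29 M)`,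
`B = (2^y' - 2^(y+k)) + (2^z' - 2^(z+k))`, `|B| ≤ 2^(27 M + 2)`; if `y' ≠ y + k` then `|B| ≥ 2^(25 M) - 2^(23 M + 1) ≥ 2^(24 M)`, otherwise
`z' ≠ z + k` and `|B| ≥ 2^(21 M)`. -/
def S_PUY : Prop := ∃ C : ℝ, 0 < C ∧ ∀ c r : ℝ, 0 < r → r < c → ∀ᶠ M : ℕ in atTop, ∀ q ∈ QY M, ∀ q' ∈ QY M,
  ¬ (q 0 + q' 1 = q' 0 + q 1 ∧ q 0 + q' 2 = q' 0 + q 2) →
    volume {α : ℝ | α ∈ Set.Icc (c - r) (c + r) ∧ PY α q ∧ PY α q'} ≤ ENNReal.ofReal (C * r / (M : ℝ) ^ 2)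

end Pool.Agent.D0H11.GO
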